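import Pool.Agent.W247.ET.Stm

/-!
# Project ET (helper247): part VA1
-/

set_option autoImplicit false

open Finset MeasureTheory

namespace Pool.Agent.W762.ET.VA1

open Pool.Agent.W247.ET

theorem mono_int (k : ℕ) {s : ℝ} (hs : 0 < s) :
    IntegrableOn (fun y : ℝ => y ^ k * Real.exp (-(s * y))) (Set.Ioi 0) ∧
      ∫ y in Set.Ioi (0 : ℝ), y ^ k * Real.exp (-(s * y)) = (k.factorial : ℝ) / s ^ (k + 1) := by
  constructor
  · have h := integrableOn_rpow_mul_exp_neg_mul_rpow (s := (k : ℝ)) (p := 1) (b := s)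
      (lt_of_lt_of_le (by norm_num) (Nat.cast_nonneg k)) one_pos hs
    refine h.congr_fun (fun y hy => ?_) measurableSet_Ioi
    simp only [Real.rpow_natCast, Real.rpow_one, neg_mul]
  · have h := Real.integral_rpow_mul_exp_neg_mul_Ioi (a := (k : ℝ) + 1) (r := s) (by positivity) hs
    have h2 : ∫ y in Set.Ioi (0 : ℝ), y ^ k * Real.exp (-(s * y)) =
        ∫ y in Set.Ioi (0 : ℝ), y ^ ((k : ℝ) + 1 - 1) * Real.exp (-(s * y)) := by
      refine setIntegral_congr_fun measurableSet_Ioi fun y hy => ?_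
      simp only [add_sub_cancel_right, Real.rpow_natCast]
    rw [h2, h, Real.Gamma_nat_eq_factorial]
    have h3 : (1 / s) ^ ((k : ℝ) + 1) = (1 / s) ^ (k + 1) := by
      rw [← Real.rpow_natCast]; push_cast; rfl
    rw [h3, one_div, inv_pow, div_eq_mul_inv, mul_comm]

theorem poly_int (c0 c1 c2 c3 : ℝ) {s : ℝ} (hs : 0 < s) :
    IntegrableOn (fun y : ℝ => (c0 + c1 * y + c2 * y ^ 2 + c3 * y ^ 3) * Real.exp (-(s * y)))
      (Set.Ioi 0) ∧
      ∫ y in Set.Ioi (0 : ℝ), (c0 + c1 * y + c2 * y ^ 2 + c3 * y ^ 3) * Real.exp (-(s * y)) =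
        c0 / s + c1 / s ^ 2 + 2 * c2 / s ^ 3 + 6 * c3 / s ^ 4 := by
  obtain ⟨i0, e0⟩ := mono_int 0 hs
  obtain ⟨i1, e1⟩ := mono_int 1 hs
  obtain ⟨i2, e2⟩ := mono_int 2 hs
  obtain ⟨i3, e3⟩ := mono_int 3 hs
  have hf : (fun y : ℝ => (c0 + c1 * y + c2 * y ^ 2 + c3 * y ^ 3) * Real.exp (-(s * y))) =
      fun y => c0 * (y ^ 0 * Real.exp (-(s * y))) + c1 * (y ^ 1 * Real.exp (-(s * y))) +
        c2 * (y ^ 2 * Real.exp (-(s * y))) + c3 * (y ^ 3 * Real.exp (-(s * y))) := by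
    funext y; ring
  have j0 := i0.const_mul c0
  have j1 := i1.const_mul c1
  have j2 := i2.const_mul c2
  have j3 := i3.const_mul c3
  rw [hf]
  refine ⟨((j0.add j1).add j2).add j3, ?_⟩
  have k01 : IntegrableOn (fun y : ℝ => c0 * (y ^ 0 * Real.exp (-(s * y))) +
      c1 * (y ^ 1 * Real.exp (-(s * y)))) (Set.Ioi 0) := j0.add j1
  have k02 : IntegrableOn (fun y : ℝ => c0 * (y ^ 0 * Real.exp (-(s * y))) +
      c1 * (y ^ 1 * Real.exp (-(s * y))) + c2 * (y ^ 2 * Real.exp (-(s * y)))) (Set.Ioi 0) :=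
    k01.add j2
  rw [integral_add k02 j3, integral_add k01 j2, integral_add j0 j1, integral_const_mul,
    integral_const_mul, integral_const_mul, integral_const_mul, e0, e1, e2, e3]
  norm_num [Nat.factorial]
  ring

theorem main : VA1_stmt := by
  intro B N hB
  have hpos : ∀ a ∈ B, (0 : ℝ) < a := fun a ha => by
    have := (mem_Icc.1 (hB ha)).1
    exact_mod_cast this
  have hpos' : ∀ n ∈ Icc 1 (2 * N), (0 : ℝ) < n := fun n hn => by
    have := (mem_Icc.1 hn).1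
    exact_mod_cast this
  -- the first integral
  have hD : (fun y => Dd B y ^ 2) = fun y : ℝ => ∑ p ∈ B ×ˢ B,
      (1 / 4 + (-((p.1 : ℝ) + p.2)) * y + (4 * ((p.1 : ℝ) * p.2)) * y ^ 2 + 0 * y ^ 3) *
        Real.exp (-((2 * ((p.1 : ℝ) + p.2)) * y)) := by
    funext y
    unfold Dd
    rw [sq, Finset.sum_mul_sum, ← Finset.sum_product']
    refine Finset.sum_congr rfl fun p _ => ?_
    have h : Real.exp (-((2 * ((p.1 : ℝ) + p.2)) * y)) =
        Real.exp (-(2 * (p.1 : ℝ) * y)) * Real.exp (-(2 * (p.2 : ℝ) * y)) := by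
      rw [← Real.exp_add]; congr 1; ring
    rw [h]; ring
  have hDi : ∀ p ∈ B ×ˢ B, 0 < 2 * ((p.1 : ℝ) + p.2) := by
    intro p hp
    rw [mem_product] at hp
    have := hpos _ hp.1
    have := hpos _ hp.2
    positivity
  have hH : (fun y => y * Hh B N y ^ 2) = fun y : ℝ => ∑ p ∈ Icc 1 (2 * N) ×ˢ Icc 1 (2 * N),
      ((rep B p.1 : ℝ) * rep B p.2) * ((0 + 1 * y + (-(2 * ((p.1 : ℝ) + p.2))) * y ^ 2 +
        (4 * ((p.1 : ℝ) * p.2)) * y ^ 3) * Real.exp (-((2 * ((p.1 : ℝ) + p.2)) * y))) := by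
    funext y
    unfold Hh
    rw [sq, Finset.sum_mul_sum, ← Finset.sum_product', Finset.mul_sum]
    refine Finset.sum_congr rfl fun p _ => ?_
    have h : Real.exp (-((2 * ((p.1 : ℝ) + p.2)) * y)) =
        Real.exp (-(2 * (p.1 : ℝ) * y)) * Real.exp (-(2 * (p.2 : ℝ) * y)) := by
      rw [← Real.exp_add]; congr 1; ring
    rw [h]; ring
  have hHi : ∀ p ∈ Icc 1 (2 * N) ×ˢ Icc 1 (2 * N), 0 < 2 * ((p.1 : ℝ) + p.2) := by
    intro p hp
    rw [mem_product] at hp
    have := hpos' _ hp.1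
    have := hpos' _ hp.2
    positivity
  refine ⟨?_, ?_, ?_, ?_⟩
  · rw [hD]
    exact integrable_finsetSum _ fun p hp => (poly_int _ _ _ _ (hDi p hp)).1
  · rw [hD, integral_finsetSum _ fun p hp => (poly_int _ _ _ _ (hDi p hp)).1]
    unfold VV
    refine Finset.sum_congr rfl fun p hp => ?_
    rw [(poly_int _ _ _ _ (hDi p hp)).2]
    have h0 : (0 : ℝ) < (p.1 : ℝ) + p.2 := by linarith [hDi p hp]
    generalize (p.1 : ℝ) * p.2 = w
    generalize (p.1 : ℝ) + p.2 = t at h0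
    field_simp
    ring
  · rw [hH]
    exact integrable_finsetSum _ fun p hp => ((poly_int _ _ _ _ (hHi p hp)).1).const_mul _
  · rw [hH, integral_finsetSum _ fun p hp => ((poly_int _ _ _ _ (hHi p hp)).1).const_mul _,
      ← Finset.sum_product']
    refine Finset.sum_congr rfl fun p hp => ?_
    rw [integral_const_mul, (poly_int _ _ _ _ (hHi p hp)).2]
    congr 1
    unfold kap
    have h0 : (0 : ℝ) < (p.1 : ℝ) + p.2 := by linarith [hHi p hp]
    generalize (p.1 : ℝ) * p.2 = w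
    generalize (p.1 : ℝ) + p.2 = t at h0
    field_simp
    ring

end Pool.Agent.W762.ET.VA1
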