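import Pool.Agent.W559.Et.Stm
import Pool.Agent.H920R2.Mono

set_option autoImplicit false

/-!
# Project ET: descent of smoothness along a Kummer extension
-/

namespace Pool.Agent.W762.ET

open Pool.Agent

universe u

/-- fixed elements -/
def fx {k D : Type u} [Field k] [CommRing D] [Algebra k D] (γ : D →ₐ[k] D) : Subalgebra k D :=
  AlgHom.equalizer γ (AlgHom.id k D)

/-- Smoothness of the ring of invariants, when the ideal of the fixed points is principal. -/
theorem smooth_fix {k D : Type u} [Field k] [CommRing D] [IsDomain D] [Algebra k D]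
    (γ : D →ₐ[k] D) {n : ℕ} (hn : 0 < n)
    (R : Subalgebra k D) (hst : ∀ x ∈ R, γ x ∈ R) (hγ : ∀ x ∈ R, γ^[n] x = x) (b : D)
    (hb : b ∈ R) (hb0 : γ b - b ≠ 0) (hD : ∀ c ∈ R, ∃ c' ∈ R, γ c - c = (γ b - b) * c')
    (hj : ∀ j, 0 < j → j < n → γ^[j] b - b ≠ 0 ∧ ∃ c' ∈ R, γ b - b = (γ^[j] b - b) * c')
    (hR : Algebra.Smooth k R) :
    Algebra.Smooth k ↥(R ⊓ fx γ) := by
  have hit : ∀ (n : ℕ), ∀ x ∈ R, γ^[n] x ∈ R := by
    intro n
    induction n with
    | zero => exact fun x hx => hx
    | succ n ih =>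
      intro x hx
      rw [Function.iterate_succ_apply']
      exact hst _ (ih x hx)
  have hn1 : n - 1 + 1 = n := Nat.sub_add_cancel hn
  let f : R →ₐ[k] R := (γ.comp R.val).codRestrict R fun x => hst x.1 x.2
  have hf : ∀ (n : ℕ) (x : R), ((f^[n] x : R) : D) = γ^[n] (x : D) := by
    intro n
    induction n with
    | zero => exact fun x => rfl
    | succ n ih =>
      intro x
      rw [Function.iterate_succ_apply', Function.iterate_succ_apply', ← ih]
      rfl
  have hfp : ∀ x : R, f^[n] x = x := fun x => Subtype.ext (by rw [hf]; exact hγ x.1 x.2)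
  have hbij : Function.Bijective f := by
    constructor
    · intro x y hxy
      rw [← hfp x, ← hfp y, ← hn1, Function.iterate_succ_apply, Function.iterate_succ_apply, hxy]
    · intro x
      refine ⟨f^[n - 1] x, ?_⟩
      rw [← Function.iterate_succ_apply' f, Nat.succ_eq_add_one, hn1, hfp]
  let e : R ≃ₐ[k] R := AlgEquiv.ofBijective f hbij
  have he : ∀ x : R, e x = f x := fun x => rfl
  let F := FractionRing R
  let ι : R →ₐ[k] F := IsScalarTower.toAlgHom k R F
  have hι : Function.Injective ι := IsFractionRing.injective R F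
  let τF : F ≃ₐ[k] F := IsFractionRing.fieldEquivOfAlgEquiv k F F e
  have hτF : ∀ x, τF (ι x) = ι (f x) := fun x =>
    IsFractionRing.fieldEquivOfAlgEquiv_algebraMap k F F e x
  have hτFn : ∀ (m : ℕ) x, τF^[m] (ι x) = ι (f^[m] x) := by
    intro m
    induction m with
    | zero => intro x; rfl
    | succ m ih => intro x; rw [Function.iterate_succ_apply, hτF, ih, Function.iterate_succ_apply]
  have hτFid : ∀ x, τF^[n] x = x := by
    intro x
    obtain ⟨a, c, -, rfl⟩ := IsFractionRing.div_surjective (A := R) x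
    have h3 : ∀ (m : ℕ) (y z : F), τF^[m] (y / z) = τF^[m] y / τF^[m] z := by
      intro m
      induction m with
      | zero => intro y z; rfl
      | succ m ih => intro y z; rw [Function.iterate_succ_apply, map_div₀, ih,
          Function.iterate_succ_apply, Function.iterate_succ_apply]
    have h4 : ∀ y : R, τF^[n] (algebraMap R F y) = algebraMap R F y := by
      intro y
      have h5 := hτFn n y
      rw [hfp] at h5
      exact h5
    rw [h3, h4, h4]
  let T : Subalgebra k F := ι.range
  have hTsm : Algebra.Smooth k T := Algebra.Smooth.of_equiv (AlgEquiv.ofInjective ι hι)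
  let b' : R := ⟨b, hb⟩
  have hdiff : ∀ j, τF^[j] (ι b') - ι b' = ι (f^[j] b' - b') := by
    intro j
    rw [hτFn, map_sub]
  have hd1 : τF (ι b') - ι b' = ι (f b' - b') := hdiff 1
  have key : Algebra.Smooth k ↥(T ⊓ H920R2.fixedAlg τF) := by
    refine H920R2.smooth_fixed τF n hn hτFid T ?_ (ι b') ⟨b', rfl⟩ ?_ ?_ hTsm
    · rintro _ ⟨x, rfl⟩
      exact ⟨f x, (hτF x).symm⟩
    · rintro _ ⟨c, rfl⟩
      obtain ⟨c', hc', h3⟩ := hD c.1 c.2
      refine ⟨⟨c', hc'⟩, ?_⟩
      change ι ⟨c', hc'⟩ = (τF (ι c) - ι c) / (τF (ι b') - ι b')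
      have hne : ι (f b' - b') ≠ 0 := by
        intro h
        have h5 : f b' - b' = 0 := hι (by rw [h, map_zero])
        exact hb0 (congrArg Subtype.val h5)
      rw [hd1, eq_div_iff hne, hτF, ← map_sub, ← map_mul]
      congr 1
      apply Subtype.ext
      change c' * (γ b - b) = γ c.1 - c.1
      rw [h3, mul_comm]
    · intro j hj0 hjn
      obtain ⟨h4, c', hc', h5⟩ := hj j hj0 hjn
      have hne : ι (f^[j] b' - b') ≠ 0 := by
        intro h
        have h6 : f^[j] b' - b' = 0 := hι (by rw [h, map_zero])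
        apply h4
        have h7 := congrArg Subtype.val h6
        have h8 : ((f^[j] b' - b' : R) : D) = γ^[j] b - b := by
          rw [AddSubgroupClass.coe_sub, hf]
        rw [h8] at h7
        exact h7
      constructor
      · intro h
        apply hne
        rw [← hdiff, h, sub_self]
      · refine ⟨⟨c', hc'⟩, ?_⟩
        change ι ⟨c', hc'⟩ = (τF (ι b') - ι b') / (τF^[j] (ι b') - ι b')
        rw [hd1, hdiff, eq_div_iff hne, ← map_mul]
        congr 1
        apply Subtype.ext
        change c' * ((f^[j] b' - b' : R) : D) = γ b - b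
        rw [AddSubgroupClass.coe_sub, hf, h5, mul_comm]
  have hmap : ((R ⊓ fx γ).comap R.val).map ι = T ⊓ H920R2.fixedAlg τF := by
    apply le_antisymm
    · rintro _ ⟨x, hx, rfl⟩
      refine ⟨⟨x, rfl⟩, ?_⟩
      change _ ∈ H920R2.fixedAlg τF
      rw [H920R2.mem_fixedAlg]
      change τF (ι x) = ι x
      rw [hτF]
      congr 1
      exact Subtype.ext hx.2
    · rintro _ ⟨⟨x, rfl⟩, hx'⟩
      refine ⟨x, ⟨x.2, ?_⟩, rfl⟩
      have h1 := H920R2.mem_fixedAlg.1 hx'
      change τF (ι x) = ι x at h1
      rw [hτF] at h1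
      exact congrArg Subtype.val (hι h1)
  have e1 := (((R ⊓ fx γ).comap R.val).equivMapOfInjective ι hι).symm
  rw [hmap] at e1
  have h6 : Algebra.Smooth k ((R ⊓ fx γ).comap R.val) := Algebra.Smooth.of_equiv e1
  have h7 : ((R ⊓ fx γ).comap R.val).map R.val = R ⊓ fx γ := by
    apply le_antisymm
    · rintro _ ⟨x, hx, rfl⟩
      exact hx
    · rintro x hx
      exact ⟨⟨x, hx.1⟩, hx, rfl⟩
  have e2 := ((R ⊓ fx γ).comap R.val).equivMapOfInjective R.val Subtype.val_injective
  rw [h7] at e2
  exact Algebra.Smooth.of_equiv e2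

section kum

variable {k D : Type u} [Field k] [CommRing D] [IsDomain D] [Algebra k D]

/-- monomials -/
def mon (S : Subalgebra k D) (z z' : D) : Submonoid D where
  carrier := {f | ∃ s ∈ S, ∃ a b : ℕ, f = s * z ^ a * z' ^ b}
  one_mem' := ⟨1, S.one_mem, 0, 0, by simp⟩
  mul_mem' := by
    rintro _ _ ⟨s, hs, a, b, rfl⟩ ⟨t, ht, c, d, rfl⟩
    exact ⟨s * t, S.mul_mem hs ht, a + c, b + d, by ring⟩

theorem adjoin_le_span (S : Subalgebra k D) (z z' : D) {x : D}
    (hx : x ∈ Algebra.adjoin k ((S : Set D) ∪ {z, z'})) :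
    x ∈ Submodule.span k (mon S z z' : Set D) := by
  have h1 : x ∈ Subalgebra.toSubmodule (Algebra.adjoin k ((S : Set D) ∪ {z, z'})) := hx
  rw [Algebra.adjoin_eq_span] at h1
  refine Submodule.span_mono ?_ h1
  have h2 : Submonoid.closure ((S : Set D) ∪ {z, z'}) ≤ mon S z z' := by
    rw [Submonoid.closure_le]
    rintro y (hy | hy | hy)
    · exact ⟨y, hy, 0, 0, by simp⟩
    · rw [hy]
      exact ⟨1, S.one_mem, 1, 0, by simp⟩
    · rw [hy]
      exact ⟨1, S.one_mem, 0, 1, by simp⟩
  exact h2

variable {M : ℕ} {ω : k} (hω : IsPrimitiveRoot ω M) {η : D →ₐ[k] D} {z z' : D}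
  (hz : z * z' = 1) (hηz : η z = algebraMap k D ω * z) (hω0 : ω ≠ 0)

include hz hηz hω0 in
theorem eta_z' : η z' = algebraMap k D ω⁻¹ * z' := by
  have h1 : η z * η z' = 1 := by rw [← map_mul, hz, map_one]
  rw [hηz] at h1
  have h2 : algebraMap k D ω⁻¹ * algebraMap k D ω = 1 := by
    rw [← map_mul, inv_mul_cancel₀ hω0, map_one]
  calc η z' = (z * z') * η z' := by rw [hz, one_mul]
    _ = (algebraMap k D ω⁻¹ * algebraMap k D ω) * ((z * z') * η z') := by rw [h2, one_mul]
    _ = algebraMap k D ω⁻¹ * z' * (algebraMap k D ω * z * η z') := by ring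
    _ = algebraMap k D ω⁻¹ * z' := by rw [h1, mul_one]

include hz hηz hω0 in
theorem eta_iter (S : Subalgebra k D) (hS : ∀ f ∈ S, η f = f) {s : D} (hs : s ∈ S) (a b i : ℕ) :
    η^[i] (s * z ^ a * z' ^ b) = algebraMap k D ((ω ^ a * ω⁻¹ ^ b) ^ i) * (s * z ^ a * z' ^ b) := by
  induction i with
  | zero => simp
  | succ i ih =>
    rw [Function.iterate_succ_apply', ih]
    simp only [map_mul, map_pow, AlgHom.commutes]
    rw [hS s hs, hηz, eta_z' hz hηz hω0]
    ring

end kum

theorem tame : Pool.Agent.W559.Et.TameStm.{u} := by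
  intro k D _ _ _ _ M hM hMk ω hω η z z' hz hηz S hS hzM hz'M hE
  have hω0 : ω ≠ 0 := hω.ne_zero hM.ne'
  by_cases hM1 : M = 1
  · subst hM1
    rw [pow_one] at hzM hz'M
    have h1 : Algebra.adjoin k ((S : Set D) ∪ {z, z'}) = S := by
      apply le_antisymm
      · rw [Algebra.adjoin_le_iff]
        rintro y (hy | hy | hy)
        · exact hy
        · rw [hy]; exact hzM
        · rw [hy]; exact hz'M
      · intro y hy
        exact Algebra.subset_adjoin (Or.inl hy)
    rw [h1] at hE
    exact hE
  have hM2 : 1 < M := by omega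
  set E : Subalgebra k D := Algebra.adjoin k ((S : Set D) ∪ {z, z'}) with hEdef
  have hSE : ∀ y ∈ S, y ∈ E := fun y hy => Algebra.subset_adjoin (Or.inl hy)
  have hzE : z ∈ E := Algebra.subset_adjoin (Or.inr (Or.inl rfl))
  have hz'E : z' ∈ E := Algebra.subset_adjoin (Or.inr (Or.inr rfl))
  have hz0 : z ≠ 0 := by
    rintro rfl
    rw [zero_mul] at hz
    exact zero_ne_one hz
  have hηz' := eta_z' hz hηz hω0
  have hinj : Function.Injective (algebraMap k D) := (algebraMap k D).injective
  -- stability
  have hst : ∀ x ∈ E, η x ∈ E := by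
    intro x hx
    have h1 : E ≤ E.comap η := by
      rw [hEdef, Algebra.adjoin_le_iff]
      rintro y (hy | hy | hy)
      · change η y ∈ E
        rw [hS y hy]
        exact hSE y hy
      · rw [hy]
        change η z ∈ E
        rw [hηz]
        exact E.mul_mem (E.algebraMap_mem _) hzE
      · rw [hy]
        change η z' ∈ E
        rw [hηz']
        exact E.mul_mem (E.algebraMap_mem _) hz'E
    exact h1 hx
  have hiadd : ∀ (i : ℕ) (x y : D), η^[i] (x + y) = η^[i] x + η^[i] y := by
    intro i
    induction i with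
    | zero => intro x y; rfl
    | succ i ih => intro x y; rw [Function.iterate_succ_apply, map_add, ih,
        Function.iterate_succ_apply, Function.iterate_succ_apply]
  have hismul : ∀ (i : ℕ) (c : k) (x : D), η^[i] (c • x) = c • η^[i] x := by
    intro i
    induction i with
    | zero => intro c x; rfl
    | succ i ih => intro c x; rw [Function.iterate_succ_apply, map_smul, ih,
        Function.iterate_succ_apply]
  have hizero : ∀ i : ℕ, η^[i] 0 = 0 := by
    intro i
    induction i with
    | zero => rfl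
    | succ i ih => rw [Function.iterate_succ_apply, map_zero, ih]
  have hper' : ∀ x ∈ Submodule.span k (mon S z z' : Set D), η^[M] x = x := by
    intro x hx
    induction hx using Submodule.span_induction with
    | mem y hy =>
      obtain ⟨s, hs, a, b, rfl⟩ := hy
      rw [eta_iter hz hηz hω0 S hS hs]
      have h2 : (ω ^ a * ω⁻¹ ^ b) ^ M = 1 := by
        rw [mul_pow, ← pow_mul, ← pow_mul, mul_comm a, mul_comm b, pow_mul, pow_mul, hω.pow_eq_one,
          inv_pow, hω.pow_eq_one, inv_one, one_pow, one_pow, one_mul]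
      rw [h2, map_one, one_mul]
    | zero => exact hizero M
    | add y w _ _ hy hw => rw [hiadd, hy, hw]
    | smul c y _ hy => rw [hismul, hy]
  have hper : ∀ x ∈ E, η^[M] x = x := fun x hx => hper' x (adjoin_le_span S z z' hx)
  -- averages
  have hav : ∀ x ∈ Submodule.span k (mon S z z' : Set D),
      ∑ i ∈ Finset.range M, η^[i] x ∈ S := by
    intro x hx
    induction hx using Submodule.span_induction with
    | mem y hy =>
      obtain ⟨s, hs, a, b, rfl⟩ := hy
      have h2 : ∑ i ∈ Finset.range M, η^[i] (s * z ^ a * z' ^ b) =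
          algebraMap k D (∑ i ∈ Finset.range M, (ω ^ a * ω⁻¹ ^ b) ^ i) * (s * z ^ a * z' ^ b) := by
        rw [map_sum, Finset.sum_mul]
        exact Finset.sum_congr rfl fun i _ => eta_iter hz hηz hω0 S hS hs a b i
      rw [h2]
      by_cases h3 : ω ^ a * ω⁻¹ ^ b = 1
      · refine S.mul_mem (S.algebraMap_mem _) ?_
        have h4 : ω ^ a = ω ^ b := by
          rw [inv_pow] at h3
          exact (mul_inv_eq_one₀ (pow_ne_zero _ hω0)).1 h3
        rw [mul_assoc]
        refine S.mul_mem hs ?_
        rcases le_total a b with hab | hab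
        · have h6 : ω ^ (b - a) = 1 := by
            have h9 : ω ^ a * ω ^ (b - a) = ω ^ a * 1 := by
              rw [← pow_add, Nat.add_sub_cancel' hab, mul_one, h4]
            exact mul_left_cancel₀ (pow_ne_zero _ hω0) h9
          obtain ⟨c, hc⟩ := (hω.pow_eq_one_iff_dvd _).1 h6
          have h7 : z ^ a * z' ^ b = (z' ^ M) ^ c := by
            have h8 : b = a + M * c := by omega
            rw [h8, pow_add, ← mul_assoc, ← mul_pow, hz, one_pow, one_mul, pow_mul]
          rw [h7]
          exact S.pow_mem hz'M c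
        · have h6 : ω ^ (a - b) = 1 := by
            have h9 : ω ^ b * ω ^ (a - b) = ω ^ b * 1 := by
              rw [← pow_add, Nat.add_sub_cancel' hab, mul_one, h4]
            exact mul_left_cancel₀ (pow_ne_zero _ hω0) h9
          obtain ⟨c, hc⟩ := (hω.pow_eq_one_iff_dvd _).1 h6
          have h7 : z ^ a * z' ^ b = (z ^ M) ^ c := by
            have h8 : a = b + M * c := by omega
            rw [h8, pow_add, mul_right_comm, ← mul_pow, hz, one_pow, one_mul, pow_mul]
          rw [h7]
          exact S.pow_mem hzM c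
      · have h4 : ∑ i ∈ Finset.range M, (ω ^ a * ω⁻¹ ^ b) ^ i = 0 := by
          rw [geom_sum_eq h3]
          have h5 : (ω ^ a * ω⁻¹ ^ b) ^ M = 1 := by
            rw [mul_pow, ← pow_mul, ← pow_mul, mul_comm a, mul_comm b, pow_mul, pow_mul,
              hω.pow_eq_one, inv_pow, hω.pow_eq_one, inv_one, one_pow, one_pow, one_mul]
          rw [h5, sub_self, zero_div]
        rw [h4, map_zero, zero_mul]
        exact S.zero_mem
    | zero =>
      simp only [hizero, Finset.sum_const_zero]
      exact S.zero_mem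
    | add y w _ _ hy hw =>
      simp only [hiadd, Finset.sum_add_distrib]
      exact S.add_mem hy hw
    | smul c y _ hy =>
      simp only [hismul, ← Finset.smul_sum]
      exact S.smul_mem hy c
  have hfix : E ⊓ fx η = S := by
    apply le_antisymm
    · rintro x ⟨hx, hx'⟩
      have h1 := hav x (adjoin_le_span S z z' hx)
      have h2 : ∀ i, η^[i] x = x := by
        intro i
        have h3 : η x = x := hx'
        exact Function.iterate_fixed h3 i
      simp only [h2, Finset.sum_const, Finset.card_range] at h1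
      have h4 : x = (M : k)⁻¹ • (M • x) := by
        rw [← Nat.cast_smul_eq_nsmul k, smul_smul, inv_mul_cancel₀ hMk, one_smul]
      rw [h4]
      exact S.smul_mem h1 _
    · intro x hx
      exact ⟨hSE x hx, hS x hx⟩
  have hω1 : ω ≠ 1 := by
    have := hω.pow_ne_one_of_pos_of_lt (l := 1) one_ne_zero hM2
    rwa [pow_one] at this
  have hzj : ∀ j, η^[j] z - z = algebraMap k D (ω ^ j - 1) * z := by
    intro j
    have h1 := eta_iter hz hηz hω0 S hS S.one_mem 1 0 j
    simp only [one_mul, pow_one, pow_zero, mul_one] at h1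
    rw [h1, map_sub, map_one]
    ring
  have hz1 : η z - z = algebraMap k D (ω - 1) * z := by
    have := hzj 1
    rw [pow_one] at this
    exact this
  have hne : ∀ c : k, c ≠ 0 → algebraMap k D c * z ≠ 0 := fun c hc =>
    mul_ne_zero (fun h => hc (hinj (by rw [h, map_zero]))) hz0
  have main : Algebra.Smooth k ↥(E ⊓ fx η) := by
    refine smooth_fix η hM E hst hper z hzE ?_ ?_ ?_ hE
    · rw [hz1]
      exact hne _ (sub_ne_zero.2 hω1)
    · intro c hc
      refine ⟨algebraMap k D (ω - 1)⁻¹ * z' * (η c - c), E.mul_mem (E.mul_mem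
        (E.algebraMap_mem _) hz'E) (E.sub_mem (hst c hc) hc), ?_⟩
      rw [hz1]
      have h1 : algebraMap k D (ω - 1) * algebraMap k D (ω - 1)⁻¹ = 1 := by
        rw [← map_mul, mul_inv_cancel₀ (sub_ne_zero.2 hω1), map_one]
      calc η c - c = 1 * 1 * (η c - c) := by ring
        _ = (algebraMap k D (ω - 1) * algebraMap k D (ω - 1)⁻¹) * (z * z') * (η c - c) := by
            rw [h1, hz]
        _ = _ := by ring
    · intro j hj hjM
      have hωj : ω ^ j - 1 ≠ 0 :=
        sub_ne_zero.2 (hω.pow_ne_one_of_pos_of_lt hj.ne' hjM)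
      rw [hzj, hz1]
      refine ⟨hne _ hωj, algebraMap k D ((ω - 1) * (ω ^ j - 1)⁻¹), E.algebraMap_mem _, ?_⟩
      have h1 : algebraMap k D (ω - 1) = algebraMap k D (ω ^ j - 1) *
          algebraMap k D ((ω - 1) * (ω ^ j - 1)⁻¹) := by
        rw [← map_mul]
        congr 1
        field_simp
      conv_lhs => rw [h1]
      ring
  rw [hfix] at main
  exact main

end Pool.Agent.W762.ET
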